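import Pool.Agent.H97.NE.NIL

set_option autoImplicit false

namespace H97.NE

open H6.NE

theorem relIndex_ne0 {G : Type} [Group G] [Finite G] (H K : Subgroup G) : H.relIndex K ≠ 0 :=
  Subgroup.index_ne_zero_of_finite (H := H.subgroupOf K)

theorem relIndex_eq_pow {p : ℕ} [hp : Fact p.Prime] {G : Type} [Group G] [Finite G]
    (hG : IsPGroup p G) (H K : Subgroup G) :
    H.relIndex K = p ^ ((H.relIndex K).factorization p) := by
  obtain ⟨n, hn⟩ := (hG.to_subgroup K).index (H.subgroupOf K)
  have h1 : H.relIndex K = p ^ n := hn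
  rw [h1, hp.out.factorization_pow, Finsupp.single_eq_same]

theorem fact_le_of_relIndex_le {p : ℕ} [hp : Fact p.Prime] {G : Type} [Group G] [Finite G]
    (hG : IsPGroup p G) (H K H' K' : Subgroup G) (h : H.relIndex K ≤ H'.relIndex K') :
    (H.relIndex K).factorization p ≤ (H'.relIndex K').factorization p := by
  rw [relIndex_eq_pow hG H K, relIndex_eq_pow hG H' K'] at h
  exact (Nat.pow_le_pow_iff_right hp.out.one_lt).1 h

theorem stb_le_qr {p N : ℕ} {G V : Type} [Group G] [AddCommGroup V] [Module (ZMod (p ^ N)) V]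
    (ρ : Representation (ZMod (p ^ N)) G V) (F : Submodule (ZMod (p ^ N)) V)
    (hF : ∀ g, F ≤ F.comap (ρ g)) (v : V) : stb ρ v ≤ stb (qr ρ F hF) (F.mkQ v) := by
  intro g hg
  have h1 : ρ g v = v := hg
  change qr ρ F hF g (F.mkQ v) = F.mkQ v
  rw [qr_mk, h1]

/-- BND.  Hypothesis STC. -/
theorem t_BND (hSTC : S_STC) : S_BND := by
  intro p N _ hN h2 G V _ _ _ _ _ ρ e hG hO K F hF hJ
  have hJq : JV (qr ρ F hF) K (p - 1) = ⊥ := by
    rw [JV_qr, ← le_bot_iff, Submodule.map_le_iff_le_comap, Submodule.comap_bot,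
      Submodule.ker_mkQ]
    exact hJ
  have : Finite (V ⧸ F) := Finite.of_surjective _ F.mkQ_surjective
  obtain ⟨_, c2, _⟩ := hSTC p N hN h2 G (V ⧸ F) (qr ρ F hF) K hJq
  have key : ∀ v : V, ((stb (qr ρ F hF) (F.mkQ v)).relIndex K).factorization p ≤
      ((stb ρ v).relIndex K).factorization p := by
    intro v
    refine fact_le_of_relIndex_le hG _ _ _ _ ?_
    exact Subgroup.relIndex_le_of_le_left (stb_le_qr ρ F hF v) (relIndex_ne0 _ _)
  have key2 : ∀ v : V, ((stb ρ v).relIndex K).factorization p ≤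
      ((stb ρ v).index).factorization p := by
    intro v
    rw [← Subgroup.relIndex_top_right (stb ρ v)]
    refine fact_le_of_relIndex_le hG _ _ _ _ ?_
    exact Subgroup.relIndex_le_of_le_right le_top (relIndex_ne0 _ _)
  refine ⟨?_, ?_⟩
  · intro v
    have h1 := c2 (F.mkQ v)
    have h3 := key v
    have h4 := key2 v
    have h5 := hO v
    omega
  · intro Gd r hI
    have h6 : ∀ u ∈ Gd, r ≤ ((stb ρ u).index).factorization p := by
      intro u hu
      have h1 := c2 (F.mkQ u)
      have h3 := key u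
      have h7 := hI.idx u hu
      have h8 : stb ρ u ≤ K := fun g hg => hI.st u hu g hg
      have h9 := Subgroup.relIndex_mul_index h8
      rw [← h9, Nat.factorization_mul (relIndex_ne0 _ _) Subgroup.index_ne_zero_of_finite,
        Finsupp.add_apply]
      omega
    refine ⟨?_, h6⟩
    obtain ⟨u, hu⟩ := hI.ne
    exact (h6 u hu).trans (hO u)

end H97.NE
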