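import Pool.Agent.H6.NE.Stm2

set_option autoImplicit false

namespace H97.NE

open H6.NE

section
variable {p N : ℕ} {G V : Type} [Group G] [AddCommGroup V] [Module (ZMod (p ^ N)) V]
variable (ρ : Representation (ZMod (p ^ N)) G V)

theorem JV_zero (K : Subgroup G) : JV ρ K 0 = ⊤ := rfl

theorem JV_succ (K : Subgroup G) (m : ℕ) :
    JV ρ K (m + 1) = Submodule.span _ {w | ∃ k ∈ K, ∃ v ∈ JV ρ K m, w = ρ k v - v} := rfl

theorem JV_succ_mem (K : Subgroup G) (m : ℕ) {k : G} (hk : k ∈ K) {v : V} (hv : v ∈ JV ρ K m) :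
    ρ k v - v ∈ JV ρ K (m + 1) :=
  Submodule.subset_span ⟨k, hk, v, hv, rfl⟩

theorem JV_succ_le (K : Subgroup G) (m : ℕ) : JV ρ K (m + 1) ≤ JV ρ K m := by
  induction m with
  | zero => exact le_top
  | succ m ih =>
    rw [JV_succ ρ K (m + 1)]
    refine Submodule.span_le.2 ?_
    rintro w ⟨k, hk, v, hv, rfl⟩
    exact JV_succ_mem ρ K m hk (ih hv)

theorem JV_anti (K : Subgroup G) {m n : ℕ} (h : m ≤ n) : JV ρ K n ≤ JV ρ K m := by
  induction n, h using Nat.le_induction with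
  | base => exact le_rfl
  | succ n _ ih => exact (JV_succ_le ρ K n).trans ih

theorem JV_mono {K K' : Subgroup G} (h : K' ≤ K) (m : ℕ) : JV ρ K' m ≤ JV ρ K m := by
  induction m with
  | zero => exact le_top
  | succ m ih =>
    rw [JV_succ ρ K' m]
    refine Submodule.span_le.2 ?_
    rintro w ⟨k, hk, v, hv, rfl⟩
    exact JV_succ_mem ρ K m (h hk) (ih hv)

theorem JV_qr (F : Submodule (ZMod (p ^ N)) V) (hF : ∀ g, F ≤ F.comap (ρ g)) (K : Subgroup G)
    (m : ℕ) : JV (qr ρ F hF) K m = (JV ρ K m).map F.mkQ := by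
  induction m with
  | zero =>
    rw [JV_zero, JV_zero, Submodule.map_top, Submodule.range_mkQ]
  | succ m ih =>
    rw [JV_succ, JV_succ, Submodule.map_span, ih]
    congr 1
    ext w
    constructor
    · rintro ⟨k, hk, v, ⟨v', hv', rfl⟩, rfl⟩
      refine ⟨ρ k v' - v', ⟨k, hk, v', hv', rfl⟩, ?_⟩
      rw [map_sub, qr_mk]
    · rintro ⟨w', ⟨k, hk, v', hv', rfl⟩, rfl⟩
      refine ⟨k, hk, F.mkQ v', ⟨v', hv', rfl⟩, ?_⟩
      rw [map_sub, qr_mk]

theorem JV_stable (K : Subgroup G) (m : ℕ) (hK : K.Normal) (g : G) :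
    JV ρ K m ≤ (JV ρ K m).comap (ρ g) := by
  induction m with
  | zero => intro v _; exact Submodule.mem_top
  | succ m ih =>
    rw [JV_succ ρ K m]
    refine Submodule.span_le.2 ?_
    rintro w ⟨k, hk, v, hv, rfl⟩
    refine Submodule.subset_span ⟨g * k * g⁻¹, hK.conj_mem k hk g, ρ g v, ih hv, ?_⟩
    rw [map_sub]
    congr 1
    rw [← Module.End.mul_apply, ← Module.End.mul_apply, ← map_mul, ← map_mul]
    congr 2
    group

/-- a finite `p`-group acting on a nonzero finite `p`-primary module -/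
theorem JV_nil [Fact p.Prime] [Finite G] [Finite V] (hG : IsPGroup p G) (K : Subgroup G) (m : ℕ)
    (h : JV ρ K m ≤ JV ρ K (m + 1)) : JV ρ K m = ⊥ := by
  classical
  by_contra hne
  set W : Submodule (ZMod (p ^ N)) V := JV ρ K m with hW
  have hst : ∀ k : K, ∀ w : W, ρ k.1 w.1 ∈ W := by
    intro k w
    have h1 := JV_succ_le ρ K m (JV_succ_mem ρ K m k.2 w.2)
    have h2 := W.add_mem h1 w.2
    rwa [sub_add_cancel] at h2
  let act : K → W →+ W := fun k =>
    { toFun := fun w => ⟨ρ k.1 w.1, hst k w⟩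
      map_zero' := by ext; simp
      map_add' := by intro a b; ext; simp }
  letI : MulAction K (AddChar W ℂ) :=
    { smul := fun k ψ => ψ.compAddMonoidHom (act k⁻¹)
      one_smul := by
        intro ψ
        ext w
        change ψ (act (1 : K)⁻¹ w) = ψ w
        congr 1
        ext
        simp [act]
      mul_smul := by
        intro a b ψ
        ext w
        change ψ (act (a * b)⁻¹ w) = ψ (act b⁻¹ (act a⁻¹ w))
        congr 1
        ext
        simp [act] }
  have hsm : ∀ (k : K) (ψ : AddChar W ℂ) (w : W), (k • ψ) w = ψ (act k⁻¹ w) := fun k ψ w => rfl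
  haveI : Finite W := inferInstance
  haveI : Fintype W := Fintype.ofFinite W
  haveI : Nontrivial W := Submodule.nontrivial_iff_ne_bot.2 hne
  -- the cardinality
  have hpW : IsPGroup p (Multiplicative W) := by
    intro g
    refine ⟨N, ?_⟩
    have : (p ^ N) • (Multiplicative.toAdd g) = 0 := by
      rw [← Nat.cast_smul_eq_nsmul (ZMod (p ^ N)), ZMod.natCast_self, zero_smul]
    exact congrArg Multiplicative.ofAdd this
  have hdiv : p ∣ Nat.card (AddChar W ℂ) := by
    have h1 : Nat.card (AddChar W ℂ) = Nat.card W := by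
      rw [Nat.card_eq_fintype_card, Nat.card_eq_fintype_card, AddChar.card_eq]
    rw [h1]
    obtain ⟨n, hn⟩ := (IsPGroup.iff_card).1 hpW
    have h2 : Nat.card W = p ^ n := hn
    rw [h2]
    refine dvd_pow_self p ?_
    rintro rfl
    rw [pow_zero] at h2
    have := Finite.one_lt_card (α := W)
    omega
  have hK : IsPGroup p K := hG.to_subgroup K
  haveI : Finite (AddChar W ℂ) := inferInstance
  obtain ⟨ψ, hψ, hψ1⟩ := hK.exists_fixed_point_of_prime_dvd_card_of_fixed_point (AddChar W ℂ) hdiv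
    (a := (1 : AddChar W ℂ)) (by
      intro k
      ext w
      rw [hsm]
      simp)
  have hfix : ∀ (k : K) (w : W), ψ (act k w) = ψ w := by
    intro k w
    have h1 := hψ k⁻¹
    have h2 : (k⁻¹ • ψ) w = ψ w := by rw [h1]
    rw [hsm, inv_inv] at h2
    exact h2
  -- the kernel of ψ
  let S : AddSubgroup V :=
    { carrier := {v | ∃ hv : v ∈ W, ψ ⟨v, hv⟩ = 1}
      zero_mem' := ⟨W.zero_mem, ψ.map_zero_eq_one⟩
      add_mem' := by
        rintro a b ⟨ha, ha1⟩ ⟨hb, hb1⟩
        refine ⟨W.add_mem ha hb, ?_⟩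
        have : (⟨a + b, W.add_mem ha hb⟩ : W) = ⟨a, ha⟩ + ⟨b, hb⟩ := rfl
        rw [this, AddChar.map_add_eq_mul, ha1, hb1, one_mul]
      neg_mem' := by
        rintro a ⟨ha, ha1⟩
        refine ⟨W.neg_mem ha, ?_⟩
        have : (⟨-a, W.neg_mem ha⟩ : W) = -⟨a, ha⟩ := rfl
        rw [this, AddChar.map_neg_eq_inv, ha1, inv_one] }
  let S' : Submodule (ZMod (p ^ N)) V := AddSubgroup.toZModSubmodule (p ^ N) S
  have hle : JV ρ K (m + 1) ≤ S' := by
    rw [JV_succ]
    refine Submodule.span_le.2 ?_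
    rintro w ⟨k, hk, v, hv, rfl⟩
    have hv' : v ∈ W := hv
    have h1 : ρ k v ∈ W := hst ⟨k, hk⟩ ⟨v, hv'⟩
    refine ⟨W.sub_mem h1 hv', ?_⟩
    have h2 : (⟨ρ k v - v, W.sub_mem h1 hv'⟩ : W) = act ⟨k, hk⟩ ⟨v, hv'⟩ - ⟨v, hv'⟩ := rfl
    rw [h2, sub_eq_add_neg, AddChar.map_add_eq_mul, hfix, ← AddChar.map_add_eq_mul, add_neg_cancel,
      AddChar.map_zero_eq_one]
  apply hψ1
  ext w
  obtain ⟨_, h3⟩ := hle (h w.2)
  simpa using h3.symm

end

theorem t_NIL : S_NIL := by
  intro p N _ G V _ _ _ ρ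
  refine ⟨fun K m n h => JV_anti ρ K h, fun K K' m h => JV_mono ρ h m,
    fun F hF K m => JV_qr ρ F hF K m, fun K m hK g => JV_stable ρ K m hK g, ?_⟩
  intro _ _ hG K m h
  exact JV_nil ρ hG K m h

end H97.NE
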