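import Pool.Agent.H6.NE.Stm2

set_option autoImplicit false

namespace H97.NE

open H6.NE

theorem mem_SG {p N : ℕ} {G V : Type} [Group G] [AddCommGroup V] [Module (ZMod (p ^ N)) V]
    (ρ : Representation (ZMod (p ^ N)) G V) (K : Subgroup G) (v : V) (y : LG ρ K) :
    y ∈ SG ρ K v ↔ (y : Module.End (ZMod (p ^ N)) V) v = 0 := by
  unfold SG
  rw [mem_Sv]
  rfl

/-- conjugate of a stabiliser -/
theorem stb_conj {p N : ℕ} {G V : Type} [Group G] [AddCommGroup V] [Module (ZMod (p ^ N)) V]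
    (ρ : Representation (ZMod (p ^ N)) G V) (g : G) (v : V) :
    (stb ρ v).map (MulAut.conj g).toMonoidHom = stb ρ (ρ g v) := by
  ext x
  constructor
  · rintro ⟨h, hh, rfl⟩
    have hh' : ρ h v = v := hh
    change ρ (g * h * g⁻¹) (ρ g v) = ρ g v
    rw [← Module.End.mul_apply, ← map_mul, inv_mul_cancel_right, map_mul, Module.End.mul_apply, hh']
  · intro hx
    have hx' : ρ x (ρ g v) = ρ g v := hx
    refine ⟨g⁻¹ * x * g, ?_, ?_⟩
    · change ρ (g⁻¹ * x * g) v = v
      rw [map_mul, map_mul, Module.End.mul_apply, Module.End.mul_apply, hx',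
        ← Module.End.mul_apply, ← map_mul, inv_mul_cancel, map_one]
      rfl
    · change g * (g⁻¹ * x * g) * g⁻¹ = x
      group

theorem relIndex_stb_conj {p N : ℕ} {G V : Type} [Group G] [AddCommGroup V]
    [Module (ZMod (p ^ N)) V] (ρ : Representation (ZMod (p ^ N)) G V) (K : Subgroup G)
    (hK : K.Normal) (g : G) (v : V) :
    (stb ρ (ρ g v)).relIndex K = (stb ρ v).relIndex K := by
  have h1 := Subgroup.relIndex_map_map_of_injective (f := (MulAut.conj g).toMonoidHom)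
    (stb ρ v) K (MulAut.conj g).injective
  rw [stb_conj] at h1
  have h2 : K.map (MulAut.conj g).toMonoidHom = K := by
    ext x
    constructor
    · rintro ⟨h, hh, rfl⟩
      exact hK.conj_mem h hh g
    · intro hx
      refine ⟨g⁻¹ * x * g, ?_, ?_⟩
      · have := hK.conj_mem x hx g⁻¹
        rwa [inv_inv] at this
      · change g * (g⁻¹ * x * g) * g⁻¹ = x
        group
  rwa [h2] at h1

/-- NRM.  Hypotheses STG, STC. -/
theorem t_NRM (hSTG : S_STG) (hSTC : S_STC) : S_NRM := by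
  intro p N _ hN h2 G V _ _ _ _ _ ρ K hK hJ
  obtain ⟨_, g2, _, _, g5, g6, _⟩ := hSTG p N hN h2 G V ρ K hJ
  obtain ⟨_, c2, _⟩ := hSTC p N hN h2 G V ρ K hJ
  have hln : ∀ (g : G) (v : V), ln p (SG ρ K (ρ g v)) = ln p (SG ρ K v) := by
    intro g v
    have h1 := c2 (ρ g v)
    have h3 := c2 v
    rw [relIndex_stb_conj ρ K hK g v] at h1
    omega
  have hM : ∀ (g : G) (v : V), Mxx ρ K v → Mxx ρ K (ρ g v) := by
    intro g v hv w
    rw [hln]
    exact hv w
  have hle : Kn ρ K ≤ K := by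
    unfold Kn
    rw [Subgroup.closure_le]
    rintro k ⟨hk, _⟩
    exact hk
  have hstab : ∀ v, Mxx ρ K v → ∀ k ∈ K, ρ k v = v → k ∈ Kn ρ K :=
    fun v hv k hk hkv => Subgroup.subset_closure ⟨hk, v, hv, hkv⟩
  refine ⟨?_, hle, ?_, hstab, ?_⟩
  · constructor
    intro n hn g
    have hmap : (Kn ρ K) ≤ (Kn ρ K).comap (MulAut.conj g).toMonoidHom := by
      conv_lhs => unfold Kn
      rw [Subgroup.closure_le]
      rintro k ⟨hk, v, hv, hkv⟩
      refine Subgroup.subset_closure ⟨hK.conj_mem k hk g, ρ g v, hM g v hv, ?_⟩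
      change ρ (g * k * g⁻¹) (ρ g v) = ρ g v
      rw [← Module.End.mul_apply, ← map_mul, inv_mul_cancel_right, map_mul, Module.End.mul_apply,
        hkv]
    exact hmap hn
  · intro k hk hk1
    obtain ⟨v, hv⟩ := Finite.exists_min (fun v : V => ln p (SG ρ K v))
    refine hstab v hv k hk ?_
    rw [hk1]
    rfl
  · intro v hv y hy
    obtain ⟨_, k, hk, hyk⟩ := g2 y y.2
    have hy0 : (y : Module.End (ZMod (p ^ N)) V) v = 0 := (mem_SG ρ K v y).1 hy
    have h3 : ex p N (y : Module.End (ZMod (p ^ N)) V) v = v := (g6 y y.2 v).1 hy0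
    rw [hyk] at h3
    exact (g5 (Kn ρ K) hle).2 y y.2 k (hstab v hv k hk h3) hyk

end H97.NE
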